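import Mathlib

/-!
# Neighborly families of simplices: definitions
-/

namespace Pool.Agent.Helper39.Simp

open Module

/-- Euclidean space `ℝ^d`. -/
abbrev E (d : ℕ) : Type := EuclideanSpace ℝ (Fin d)

/-- `S` is a `d`-simplex in `ℝ^d`: the convex hull of `d + 1` affinely independent points. -/
def IsSimplex (d : ℕ) (S : Set (E d)) : Prop :=
  ∃ v : Fin (d + 1) → E d, AffineIndependent ℝ v ∧ S = convexHull ℝ (Set.range v)

/-- A finite family `F` of sets is a neighborly family of `d`-simplices in `ℝ^d`: every member is a
`d`-simplex, and any two distinct members have disjoint interiors and a nonempty intersection whose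
affine span has dimension `d - 1`. -/
def Neighborly (d : ℕ) (F : Finset (Set (E d))) : Prop :=
  (∀ S ∈ F, IsSimplex d S) ∧
  ∀ S ∈ F, ∀ T ∈ F, S ≠ T →
    Disjoint (interior S) (interior T) ∧
    (S ∩ T).Nonempty ∧ finrank ℝ (affineSpan ℝ (S ∩ T)).direction + 1 = d

end Pool.Agent.Helper39.Simp
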