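import Mathlib
import Pool.Agent.Helper39.Simp.Defs

/-!
# From integer data to neighborly families of simplices
-/

namespace Pool.Agent.Helper39.Simp

open Module

variable {d : ℕ}

/-- The affine function with integer coefficients `c` (constant term first). -/
noncomputable def ev (c : Fin (d + 1) → ℤ) (x : E d) : ℝ :=
  (c 0 : ℝ) + ∑ t : Fin d, (c t.succ : ℝ) * x t

/-- The linear part. -/
noncomputable def lin (c : Fin (d + 1) → ℤ) (x : E d) : ℝ :=
  ∑ t : Fin d, (c t.succ : ℝ) * x t

/-- The point with homogeneous integer coordinates `v` (weight first). -/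
noncomputable def pt (v : Fin (d + 1) → ℤ) : E d :=
  WithLp.toLp 2 (fun t => (v t.succ : ℝ) / (v 0 : ℝ))

/-- Integer dot product. -/
def dot (c v : Fin (d + 1) → ℤ) : ℤ := ∑ t, c t * v t

lemma ev_pt (c v : Fin (d + 1) → ℤ) (h : 0 < v 0) : ev c (pt v) = (dot c v : ℝ) / (v 0 : ℝ) := by
  have h0 : (v 0 : ℝ) ≠ 0 := by exact_mod_cast h.ne'
  unfold ev pt dot
  rw [eq_div_iff h0, Fin.sum_univ_succ]
  push_cast
  rw [add_mul, Finset.sum_mul]
  congr 1
  refine Finset.sum_congr rfl fun t _ => ?_
  field_simp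

lemma lin_add (c : Fin (d + 1) → ℤ) (x y : E d) : lin c (x + y) = lin c x + lin c y := by
  simp [lin, mul_add, Finset.sum_add_distrib]

lemma lin_smul (c : Fin (d + 1) → ℤ) (r : ℝ) (x : E d) : lin c (r • x) = r * lin c x := by
  simp only [lin, PiLp.smul_apply, smul_eq_mul, Finset.mul_sum]
  refine Finset.sum_congr rfl fun t _ => ?_
  ring

/-- The linear part as a linear map. -/
noncomputable def linL (c : Fin (d + 1) → ℤ) : E d →ₗ[ℝ] ℝ where
  toFun := lin c
  map_add' := lin_add c
  map_smul' := fun r x => by simpa using lin_smul c r x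

lemma ev_eq (c : Fin (d + 1) → ℤ) (x : E d) : ev c x = c 0 + linL c x := rfl

lemma ev_add (c : Fin (d + 1) → ℤ) (x y : E d) : ev c (x + y) = ev c x + linL c y := by
  rw [ev_eq, ev_eq, map_add]; ring

lemma ev_sub (c : Fin (d + 1) → ℤ) (x y : E d) : ev c x - ev c y = linL c (x - y) := by
  rw [ev_eq, ev_eq, map_sub]; ring

lemma ev_sum {ι : Type*} (s : Finset ι) (c : Fin (d + 1) → ℤ) (w : ι → ℝ) (x : ι → E d) :
    linL c (∑ i ∈ s, w i • x i) = ∑ i ∈ s, w i * ev c (x i) - (∑ i ∈ s, w i) * c 0 := by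
  rw [map_sum, Finset.sum_mul, ← Finset.sum_sub_distrib]
  refine Finset.sum_congr rfl fun i _ => ?_
  rw [map_smul, ev_eq, smul_eq_mul]; ring

/-- Integer data of a simplex: the inner facet covectors `lam` and the homogeneous coordinates
`V` of the vertices, vertex `k` being opposite to facet `k`. -/
structure Good (lam V : Fin (d + 1) → Fin (d + 1) → ℤ) : Prop where
  pos : ∀ k, 0 < V k 0
  off : ∀ k l, k ≠ l → dot (lam k) (V l) = 0
  diag : ∀ k, 0 < dot (lam k) (V k)

/-- The simplex with the given vertices. -/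
noncomputable def simp (V : Fin (d + 1) → Fin (d + 1) → ℤ) : Set (E d) :=
  convexHull ℝ (Set.range fun k => pt (V k))

section

variable {lam V : Fin (d + 1) → Fin (d + 1) → ℤ}

lemma Good.ev_off (h : Good lam V) {k l} (hkl : k ≠ l) : ev (lam k) (pt (V l)) = 0 := by
  rw [ev_pt _ _ (h.pos l), h.off k l hkl]; simp

lemma Good.ev_diag (h : Good lam V) (k) : 0 < ev (lam k) (pt (V k)) := by
  rw [ev_pt _ _ (h.pos k)]
  have := h.diag k
  have := h.pos k
  positivity

lemma Good.sum_ev (h : Good lam V) (w : Fin (d + 1) → ℝ) (k) :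
    ∑ l, w l * ev (lam k) (pt (V l)) = w k * ev (lam k) (pt (V k)) := by
  rw [Finset.sum_eq_single k]
  · intro l _ hl
    rw [h.ev_off hl.symm, mul_zero]
  · simp

lemma Good.affineIndependent (h : Good lam V) : AffineIndependent ℝ (fun k => pt (V k)) := by
  rw [affineIndependent_iff]
  intro s w hw hs k hk
  have h1 := ev_sum s (lam k) w (fun k => pt (V k))
  rw [hs, hw, map_zero, zero_mul, sub_zero, Finset.sum_eq_single k] at h1
  · have := h.ev_diag k
    rcases mul_eq_zero.mp h1.symm with h2 | h2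
    · exact h2
    · exact absurd h2 this.ne'
  · intro l _ hl
    rw [h.ev_off hl.symm, mul_zero]
  · intro hk'; exact absurd hk hk'

lemma Good.isSimplex (h : Good lam V) : IsSimplex d (simp V) :=
  ⟨_, h.affineIndependent, rfl⟩

lemma convex_ev (c : Fin (d + 1) → ℤ) : Convex ℝ {x : E d | 0 ≤ ev c x} := by
  intro x hx y hy a b ha hb hab
  simp only [Set.mem_ofPred_eq] at *
  have : ev c (a • x + b • y) = a * ev c x + b * ev c y := by
    rw [ev_eq, ev_eq, ev_eq, map_add, map_smul, map_smul, smul_eq_mul, smul_eq_mul]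
    have : (c 0 : ℝ) = (a + b) * c 0 := by rw [hab, one_mul]
    linear_combination this
  rw [this]
  positivity

lemma Good.subset (h : Good lam V) (k) : simp V ⊆ {x | 0 ≤ ev (lam k) x} := by
  apply convexHull_min _ (convex_ev _)
  rintro _ ⟨l, rfl⟩
  simp only [Set.mem_ofPred_eq]
  by_cases hkl : k = l
  · subst hkl; exact (h.ev_diag _).le
  · rw [h.ev_off hkl]

lemma Good.mem (h : Good lam V) {x : E d} (hx : ∀ k, 0 ≤ ev (lam k) x) : x ∈ simp V := by
  have hspan : affineSpan ℝ (Set.range fun k => pt (V k)) = ⊤ := by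
    apply h.affineIndependent.affineSpan_eq_top_iff_card_eq_finrank_add_one.mpr
    simp
  have hx' : x ∈ affineSpan ℝ (Set.range fun k => pt (V k)) := by rw [hspan]; trivial
  obtain ⟨w, hw, hxw⟩ := eq_affineCombination_of_mem_affineSpan_of_fintype hx'
  rw [Finset.affineCombination_eq_linear_combination _ _ _ hw] at hxw
  have key : ∀ k, ev (lam k) x = w k * ev (lam k) (pt (V k)) := by
    intro k
    rw [ev_eq, hxw, ev_sum, hw, h.sum_ev]; ring
  have hw0 : ∀ k, 0 ≤ w k := by
    intro k
    have h1 := hx k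
    rw [key k] at h1
    exact nonneg_of_mul_nonneg_left h1 (h.ev_diag k)
  rw [hxw]
  unfold simp
  apply (convex_convexHull ℝ _).sum_mem (fun i _ => hw0 i) hw
  intro i _
  exact subset_convexHull ℝ _ ⟨i, rfl⟩

end

end Pool.Agent.Helper39.Simp
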