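import Mathlib
import Pool.Agent.Helper39.Simp.Basic

/-!
# Two simplices touching along a facet region
-/

namespace Pool.Agent.Helper39.Simp

open Module Filter Topology

variable {d : ℕ} {lam V lam' V' : Fin (d + 1) → Fin (d + 1) → ℤ}

/-- For a point with positive values off facet `a`, small steps inside the facet hyperplane stay
in the simplex. -/
lemma Good.eventually_mem (h : Good lam V) {a : Fin (d + 1)} {x u : E d}
    (hx0 : ev (lam a) x = 0) (hu : linL (lam a) u = 0) (hx : ∀ k, k ≠ a → 0 < ev (lam k) x) :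
    ∀ᶠ ε : ℝ in 𝓝 0, x + ε • u ∈ simp V := by
  have h1 : ∀ k, ∀ᶠ ε : ℝ in 𝓝 0, 0 ≤ ev (lam k) (x + ε • u) := by
    intro k
    by_cases hk : k = a
    · subst hk
      refine Eventually.of_forall fun ε => ?_
      rw [ev_add, map_smul, hx0, hu]; simp
    · have hc : Continuous fun ε : ℝ => ev (lam k) x + ε * linL (lam k) u := by fun_prop
      have h2 : ∀ᶠ ε : ℝ in 𝓝 0, 0 < ev (lam k) x + ε * linL (lam k) u := by
        apply hc.continuousAt.eventually_const_lt
        simpa using hx k hk
      filter_upwards [h2] with ε hε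
      rw [ev_add, map_smul, smul_eq_mul]
      exact hε.le
  filter_upwards [eventually_all.mpr h1] with ε hε
  exact h.mem hε

lemma ev_neg {c c' : Fin (d + 1) → ℤ} (h : ∀ t, c t = - c' t) (x : E d) : ev c x = - ev c' x := by
  simp [ev, h, Finset.sum_neg_distrib]; ring

lemma pair (h : Good lam V) (h' : Good lam' V') {a b : Fin (d + 1)}
    (hab : ∀ t, lam a t = - lam' b t) (W : Fin (d + 1) → ℤ) (hW0 : 0 < W 0)
    (hWa : dot (lam a) W = 0) (hW : ∀ k, k ≠ a → 0 < dot (lam k) W)
    (hW' : ∀ k, k ≠ b → 0 < dot (lam' k) W) :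
    simp V ≠ simp V' ∧ Disjoint (interior (simp V)) (interior (simp V')) ∧
      (simp V ∩ simp V').Nonempty ∧
      finrank ℝ (affineSpan ℝ (simp V ∩ simp V')).direction + 1 = d := by
  have hW0' : (0 : ℝ) < W 0 := by exact_mod_cast hW0
  have hneg : ∀ x, ev (lam' b) x = - ev (lam a) x := fun x => by
    rw [ev_neg hab x, neg_neg]
  have hx0 : ev (lam a) (pt W) = 0 := by rw [ev_pt _ _ hW0, hWa]; simp
  have hx0' : ev (lam' b) (pt W) = 0 := by rw [hneg, hx0, neg_zero]
  have hx : ∀ k, k ≠ a → 0 < ev (lam k) (pt W) := by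
    intro k hk
    rw [ev_pt _ _ hW0]
    have := hW k hk
    positivity
  have hx' : ∀ k, k ≠ b → 0 < ev (lam' k) (pt W) := by
    intro k hk
    rw [ev_pt _ _ hW0]
    have := hW' k hk
    positivity
  -- the linear part is nonzero
  set u : E d := pt (V a) - pt W with hu
  have hlu : 0 < linL (lam a) u := by
    rw [hu, ← ev_sub, hx0, sub_zero]
    exact h.ev_diag a
  have hne : linL (lam a) ≠ 0 := by
    intro h0
    rw [h0] at hlu
    simp at hlu
  have hmem : ∀ {x}, x ∈ simp V → 0 ≤ ev (lam a) x := fun hx => h.subset a hx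
  have hmem' : ∀ {x}, x ∈ simp V' → ev (lam a) x ≤ 0 := fun {x} hx => by
    have := h'.subset b hx
    simp only [Set.mem_ofPred_eq, hneg x] at this
    linarith
  have hlin' : ∀ x, linL (lam' b) x = - linL (lam a) x := by
    intro x
    have h1 := hneg (0 + x)
    have h2 := hneg 0
    rw [ev_add, ev_add] at h1
    linarith
  refine ⟨?_, ?_, ?_, ?_⟩
  · intro heq
    have h1 : pt (V a) ∈ simp V := subset_convexHull ℝ _ ⟨a, rfl⟩
    rw [heq] at h1
    have := hmem' h1
    have := h.ev_diag a
    linarith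
  · rw [Set.disjoint_left]
    intro x hxS hxT
    have hT : ev (lam a) x ≤ 0 := hmem' (interior_subset hxT)
    have hc : Continuous fun ε : ℝ => x - ε • u := by fun_prop
    have h1 : ∀ᶠ ε : ℝ in 𝓝 0, x - ε • u ∈ simp V := by
      apply hc.continuousAt.eventually
      simpa using mem_interior_iff_mem_nhds.mp hxS
    have h2 : ∀ᶠ ε : ℝ in 𝓝[>] 0, x - ε • u ∈ simp V := h1.filter_mono nhdsWithin_le_nhds
    obtain ⟨ε, hε, hεp⟩ := (h2.and self_mem_nhdsWithin).exists
    have hεp : 0 < ε := hεp
    have h3 := hmem hε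
    rw [sub_eq_add_neg, ← neg_smul, ev_add, map_smul, smul_eq_mul] at h3
    nlinarith [mul_pos hεp hlu]
  · refine ⟨pt W, h.mem fun k => ?_, h'.mem fun k => ?_⟩
    · by_cases hk : k = a
      · rw [hk, hx0]
      · exact (hx k hk).le
    · by_cases hk : k = b
      · rw [hk, hx0']
      · exact (hx' k hk).le
  · have hker : (affineSpan ℝ (simp V ∩ simp V')).direction = LinearMap.ker (linL (lam a)) := by
      rw [direction_affineSpan]
      apply le_antisymm
      · rw [vectorSpan_def, Submodule.span_le]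
        rintro _ ⟨x, ⟨hxS, hxT⟩, y, ⟨hyS, hyT⟩, rfl⟩
        simp only [SetLike.mem_coe, LinearMap.mem_ker, vsub_eq_sub]
        rw [← ev_sub, le_antisymm (hmem' hxT) (hmem hxS), le_antisymm (hmem' hyT) (hmem hyS),
          sub_zero]
      · intro z hz
        rw [LinearMap.mem_ker] at hz
        have h1 := h.eventually_mem hx0 hz hx
        have h2 := h'.eventually_mem (a := b) (u := z) hx0' (by rw [hlin', hz, neg_zero]) hx'
        have h3 : ∀ᶠ ε : ℝ in 𝓝[>] 0, pt W + ε • z ∈ simp V ∧ pt W + ε • z ∈ simp V' :=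
          (h1.and h2).filter_mono nhdsWithin_le_nhds
        obtain ⟨ε, ⟨hε1, hε2⟩, hεp⟩ := (h3.and self_mem_nhdsWithin).exists
        have hεp : (0 : ℝ) < ε := hεp
        have hW1 : pt W ∈ simp V ∩ simp V' := by
          constructor
          · simpa using h1.self_of_nhds
          · simpa using h2.self_of_nhds
        have h4 := vsub_mem_vectorSpan ℝ (show pt W + ε • z ∈ simp V ∩ simp V' from ⟨hε1, hε2⟩) hW1
        rw [vsub_eq_sub, add_sub_cancel_left] at h4
        have h5 := Submodule.smul_mem _ (ε⁻¹) h4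
        rwa [smul_smul, inv_mul_cancel₀ hεp.ne', one_smul] at h5
    rw [hker]
    have h6 := Module.Dual.finrank_ker_add_one_of_ne_zero (f := linL (lam a)) hne
    simpa using h6

end Pool.Agent.Helper39.Simp
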