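import Mathlib
import Pool.Agent.Helper39.Simp.Pair

/-!
# Families
-/

namespace Pool.Agent.Helper39.Simp

open Module

variable {d : ℕ}

/-- Integer certificate that two simplices touch. -/
def Touch (lam lam' : Fin (d + 1) → Fin (d + 1) → ℤ) : Prop :=
  ∃ (a b : Fin (d + 1)) (W : Fin (d + 1) → ℤ), (∀ t, lam a t = - lam' b t) ∧ 0 < W 0 ∧
    dot (lam a) W = 0 ∧ (∀ k, k ≠ a → 0 < dot (lam k) W) ∧ (∀ k, k ≠ b → 0 < dot (lam' k) W)

theorem family {n : ℕ} (lam V : Fin n → Fin (d + 1) → Fin (d + 1) → ℤ)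
    (hgood : ∀ i, Good (lam i) (V i)) (hpair : ∀ i j, i < j → Touch (lam i) (lam j)) :
    ∃ F : Finset (Set (E d)), Neighborly d F ∧ F.card = n := by
  classical
  have key : ∀ i j, i ≠ j → simp (V i) ≠ simp (V j) ∧
      Disjoint (interior (simp (V i))) (interior (simp (V j))) ∧
      (simp (V i) ∩ simp (V j)).Nonempty ∧
      finrank ℝ (affineSpan ℝ (simp (V i) ∩ simp (V j))).direction + 1 = d := by
    have h1 : ∀ i j, i < j → simp (V i) ≠ simp (V j) ∧
        Disjoint (interior (simp (V i))) (interior (simp (V j))) ∧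
        (simp (V i) ∩ simp (V j)).Nonempty ∧
        finrank ℝ (affineSpan ℝ (simp (V i) ∩ simp (V j))).direction + 1 = d := by
      intro i j hij
      obtain ⟨a, b, W, hab, hW0, hWa, hW, hW'⟩ := hpair i j hij
      exact pair (hgood i) (hgood j) hab W hW0 hWa hW hW'
    intro i j hij
    rcases lt_or_gt_of_ne hij with h | h
    · exact h1 i j h
    · obtain ⟨h2, h3, h4, h5⟩ := h1 j i h
      exact ⟨h2.symm, h3.symm, by rwa [Set.inter_comm], by rwa [Set.inter_comm]⟩
  refine ⟨Finset.univ.image fun i => simp (V i), ⟨?_, ?_⟩, ?_⟩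
  · intro S hS
    obtain ⟨i, _, rfl⟩ := Finset.mem_image.mp hS
    exact (hgood i).isSimplex
  · intro S hS T hT hST
    obtain ⟨i, _, rfl⟩ := Finset.mem_image.mp hS
    obtain ⟨j, _, rfl⟩ := Finset.mem_image.mp hT
    have hij : i ≠ j := fun h => hST (by rw [h])
    exact (key i j hij).2
  · rw [Finset.card_image_of_injective, Finset.card_univ, Fintype.card_fin]
    intro i j hij
    by_contra h
    exact (key i j h).1 hij

end Pool.Agent.Helper39.Simp
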