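import Mathlib
import Pool.Agent.Helper39.Simp.Family

/-!
# Integer data of 17 neighborly 4-simplices in `ℝ^4`
-/

namespace Pool.Agent.Helper39.Simp.Data17

/-- The 24 hyperplanes (constant term first). -/
def hyp : List (List ℤ) := [
  [0, 0, 0, 0, 1],
  [10, -11, -2, 2, -6],
  [-39, -6, -10, -9, 30],
  [47, -60, 1, 71, -14],
  [3, 0, 1, 0, -19],
  [0, 0, -3, 2, -13],
  [9, 46, 9, -39, -23],
  [-21, 18, 13, -9, 59],
  [5, -77, -11, 72, 23],
  [-1, 2, 2, 1, 6],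
  [-7, 5, -2, -6, 24],
  [17, -15, -5, 3, -23],
  [-3, 1, 0, 23, -1],
  [38, -23, 12, -1234, 34],
  [5, 1, 1, -57, 4],
  [-2, 1, 0, 62, -2],
  [0, -2, 1, -118, -2],
  [7, -4, 0, -233, 7],
  [-3, -1, -1, -69, 2],
  [-50, 4, -1, 153, -5],
  [3, 2, -1, 116, 2],
  [-9, -2, 1, -110, -1],
  [-3, 3, -1, 136, 5],
  [0, 3, -1, 124, 1]]

/-- Facets of the simplices (indices of hyperplanes). -/
def rows : List (List ℕ) := [
  [0, 2, 4, 7, 9],
  [0, 2, 3, 6, 8],
  [0, 1, 3, 5, 9],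
  [0, 2, 3, 4, 10],
  [0, 2, 3, 8, 10],
  [0, 1, 3, 9, 11],
  [0, 3, 4, 5, 9],
  [0, 3, 5, 7, 11],
  [0, 3, 7, 8, 10],
  [0, 13, 16, 22, 23],
  [0, 13, 19, 22, 23],
  [0, 12, 13, 14, 15],
  [0, 13, 15, 17, 19],
  [0, 13, 15, 17, 18],
  [0, 12, 13, 15, 19],
  [0, 13, 16, 20, 22],
  [0, 13, 20, 21, 23]]

/-- The side of each facet hyperplane on which the simplex lies. -/
def sgn : List (List ℤ) := [
  [1, -1, -1, 1, -1],
  [1, 1, 1, 1, 1],
  [1, 1, -1, 1, 1],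
  [1, -1, 1, 1, 1],
  [1, 1, 1, -1, 1],
  [1, -1, -1, 1, 1],
  [1, -1, 1, 1, -1],
  [1, -1, -1, -1, -1],
  [1, 1, -1, -1, -1],
  [-1, 1, -1, -1, 1],
  [-1, 1, -1, 1, 1],
  [-1, -1, -1, 1, 1],
  [-1, -1, -1, -1, -1],
  [-1, -1, -1, 1, -1],
  [-1, 1, -1, 1, -1],
  [-1, 1, 1, 1, -1],
  [-1, 1, -1, -1, -1]]

/-- Homogeneous coordinates of the vertices. -/
def verts : List (List (List ℤ)) := [
  [[6, -1793, 1749, -464, 93],
    [12, 41, -36, 2, 0],
    [7, 104, -114, 27, 0],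
    [1, 6, -3, -5, 0],
    [24, 51, -72, -58, 0]],
  [[719, 121, -852, -243, 602],
    [2, -9, 5, -9, 0],
    [93, -1185, 1314, -1073, 0],
    [281, 1721, -3312, 1315, 0],
    [41, 1002, -1518, 841, 0]],
  [[745, 904, -3218, 477, 816],
    [25, 16, -2, -3, 0],
    [9, 8, -2, -3, 0],
    [301, 328, -218, 81, 0],
    [2245, 2056, 166, 249, 0]],
  [[12319, -34057, 13260, -36601, 2643],
    [5, 193, -15, 160, 0],
    [27, -15, -81, -17, 0],
    [1801, -2371, -2760, -3157, 0],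
    [322, -81, -966, -268, 0]],
  [[263, -36605, 64920, -30963, 5372],
    [2137, -3219, -3260, -4089, 0],
    [2121, -2667, -3492, -3533, 0],
    [1801, -2371, -2760, -3157, 0],
    [281, 1721, -3312, 1315, 0]],
  [[243, 284, -734, 123, 170],
    [739, 1522, -1562, 819, 0],
    [13, 4, 16, -27, 0],
    [769, 472, 1123, -126, 0],
    [301, 328, -218, 81, 0]],
  [[19440, 13741, -11162, -610, 2482],
    [4, 23, -12, -18, 0],
    [25, 16, -2, -3, 0],
    [202, 541, -606, 332, 0],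
    [120, -551, -360, -540, 0]],
  [[3075, 3218, -10638, 1359, 2664],
    [33, 38, -18, -27, 0],
    [987, 1076, 279, 252, 0],
    [1095, 1234, 210, 315, 0],
    [1905, 2234, 414, 621, 0]],
  [[313669, -1203119, 839570, -1214811, 108398],
    [573, 9789, -6048, 9505, 0],
    [2137, -3219, -3260, -4089, 0],
    [674, 2434, -1155, 1627, 0],
    [3095, -26296, 24369, -24614, 0]],
  [[4, -2958, 30938, 329, -984],
    [4, -6, 106, 1, 0],
    [52, -406, 394, 13, 0],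
    [88, 114, -2014, -19, 0],
    [4, 30, -58, -1, 0]],
  [[180, -3538, 23885, 284, -717],
    [4, 171, 637, 1, 0],
    [52, -406, 394, 13, 0],
    [123, -13802, 43906, 688, 0],
    [177, 18740, -27679, -613, 0]],
  [[207, 476, -161, -22, -651],
    [405, -616, -98, 23, 0],
    [39, 140, -392, -1, 0],
    [39, 140, 42, -1, 0],
    [255, -2156, 8120, 127, 0]],
  [[147, 4288, 85, -134, -2157],
    [15, -32, -725, 1, 0],
    [1139, 42244, 6303, -691, 0],
    [237, 8410, 2206, -128, 0],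
    [15, -32, -6, 1, 0]],
  [[9, 224, 4, -7, -114],
    [15, -32, -82, 1, 0],
    [31, 4656, 702, -79, 0],
    [27, -1000, -254, 17, 0],
    [15, -32, -6, 1, 0]],
  [[3, -1940, -2801, -122, -4755],
    [237, 8410, 2206, -128, 0],
    [39, 140, -1543, -1, 0],
    [27, -11120, 28681, 487, 0],
    [39, 140, 42, -1, 0]],
  [[110, -918, 16486, 165, -574],
    [2, -48, 258, 3, 0],
    [69, 1214, -2005, -40, 0],
    [4, 30, -58, -1, 0],
    [2, -622, -890, 3, 0]],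
  [[204, -4198, 39488, 431, -1362],
    [1, -5, 109, 1, 0],
    [72, 2818, -10766, -155, 0],
    [150, 1066, -6350, -77, 0],
    [1, -232, -345, 1, 0]]]

/-- For `i < j`: the local indices of the common facet hyperplane and homogeneous coordinates
of a common relative interior point. -/
def wit : List (List (ℕ × ℕ × List ℤ)) := [
  [(0, 0, []),
    (1, 1, [20, 0, -30, -10, 13]),
    (4, 4, [108, 117, -297, 30, 73]),
    (2, 3, [513, -247, 380, -532, 101]),
    (1, 1, [15, -90, 105, -85, 11]),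
    (4, 3, [12, 12, -20, -2, 5]),
    (2, 2, [57, 76, -57, -38, 6]),
    (3, 3, [1357, 1475, -3068, 0, 709]),
    (3, 2, [531, -1770, 1298, -1829, 164]),
    (0, 0, [10, 41, -37, -1, 0]),
    (0, 0, [15, 156, -148, -4, 0]),
    (0, 0, [44, 152, -137, -1, 0]),
    (0, 0, [17, 150, -147, -2, 0]),
    (0, 0, [21, 88, -81, -1, 0]),
    (0, 0, [6, 24, -22, 1, 0]),
    (0, 0, [9, 32, -29, -1, 0]),
    (0, 0, [6, 22, -21, -1, 0])],
  [(0, 0, []),
    (0, 0, []),
    (2, 2, [1420, 1633, -4189, 695, 994]),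
    (1, 1, [65, -115, -45, -135, 6]),
    (4, 3, [847, -227, -770, -616, 616]),
    (2, 2, [6674, 7810, -19951, 3373, 4615]),
    (2, 1, [1065, -1349, -1775, -1806, 71]),
    (2, 1, [3195, 3408, -8946, 1339, 2272]),
    (4, 3, [2079, -15507, 14399, -14553, 77]),
    (0, 0, [22, 14, -95, -1, 0]),
    (0, 0, [43, 28, -184, -1, 0]),
    (0, 0, [43, 30, -187, 1, 0]),
    (0, 0, [50, 36, -227, 1, 0]),
    (0, 0, [55, 37, -238, 1, 0]),
    (0, 0, [13, 12, -61, 3, 0]),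
    (0, 0, [45, 28, -201, -3, 0]),
    (0, 0, [17, 9, -70, -2, 0])],
  [(0, 0, []),
    (0, 0, []),
    (0, 0, []),
    (2, 2, [639, 568, -284, 75, 71]),
    (2, 2, [5112, 5183, -14129, 1895, 3550]),
    (1, 1, [77, 74, -55, 0, 11]),
    (4, 4, [21, 18, -9, -3, 1]),
    (3, 2, [182, 195, -481, 65, 121]),
    (2, 1, [994, 923, -284, 140, 71]),
    (0, 0, [5, 4, -1, 0, 0]),
    (0, 0, [72, 65, 0, 1, 0]),
    (0, 0, [12, 11, -4, 1, 0]),
    (0, 0, [66, 66, -33, 1, 0]),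
    (0, 0, [79, 78, -37, 1, 0]),
    (0, 0, [28, 30, -19, 7, 0]),
    (0, 0, [25, 19, -5, -1, 0]),
    (0, 0, [11, 8, -1, -1, 0])],
  [(0, 0, []),
    (0, 0, []),
    (0, 0, []),
    (0, 0, []),
    (1, 1, [450, -1155, 330, -1260, 86]),
    (2, 2, [497, 426, 0, 45, 71]),
    (2, 1, [2627, 3124, -4047, 972, 71]),
    (2, 1, [1136, 1278, -355, 361, 142]),
    (4, 4, [120, 384, -264, 288, 5]),
    (0, 0, [60, 43, -105, -1, 0]),
    (0, 0, [12, 9, -20, 0, 0]),
    (0, 0, [15, 12, -26, 1, 0]),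
    (0, 0, [55, 42, -94, 1, 0]),
    (0, 0, [4, 3, -7, 0, 0]),
    (0, 0, [14, 15, -24, 4, 0]),
    (0, 0, [19, 5, -52, -1, 0]),
    (0, 0, [11, 6, -21, -1, 0])],
  [(0, 0, []),
    (0, 0, []),
    (0, 0, []),
    (0, 0, []),
    (0, 0, []),
    (2, 2, [5041, 5893, -15052, 2541, 3479]),
    (2, 1, [923, -1136, -1349, -1538, 71]),
    (2, 1, [51901, 55096, -144698, 21479, 36707]),
    (4, 4, [432, -1128, 336, -1224, 83]),
    (0, 0, [23, 15, -99, -1, 0]),
    (0, 0, [665, 454, -2852, -16, 0]),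
    (0, 0, [44, 32, -192, 1, 0]),
    (0, 0, [55, 40, -240, 1, 0]),
    (0, 0, [86, 60, -374, 1, 0]),
    (0, 0, [23, 23, -109, 6, 0]),
    (0, 0, [33, 21, -144, -2, 0]),
    (0, 0, [19, 11, -81, -2, 0])],
  [(0, 0, []),
    (0, 0, []),
    (0, 0, []),
    (0, 0, []),
    (0, 0, []),
    (0, 0, []),
    (3, 4, [24, 30, -18, -6, 1]),
    (4, 4, [207, 230, -161, 0, 38]),
    (2, 1, [639, 639, -142, 133, 71]),
    (0, 0, [47, 52, -16, -1, 0]),
    (0, 0, [43, 36, 37, 1, 0]),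
    (0, 0, [13, 15, -6, 1, 0]),
    (0, 0, [113, 161, -100, 1, 0]),
    (0, 0, [3, 4, -2, 0, 0]),
    (0, 0, [7, 8, 0, 2, 0]),
    (0, 0, [22, 22, -10, -1, 0]),
    (0, 0, [13, 10, 10, -1, 0])],
  [(0, 0, []),
    (0, 0, []),
    (0, 0, []),
    (0, 0, []),
    (0, 0, []),
    (0, 0, []),
    (0, 0, []),
    (3, 2, [351, 403, -208, -260, 8]),
    (1, 1, [1420, 568, -852, -434, 71]),
    (0, 0, [19, 37, -50, -1, 0]),
    (0, 0, [14, 47, -41, -1, 0]),
    (0, 0, [21, 39, -57, 1, 0]),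
    (0, 0, [66, 177, -186, -1, 0]),
    (0, 0, [33, 64, -88, -1, 0]),
    (0, 0, [4, 5, -5, 1, 0]),
    (0, 0, [16, 14, -47, -1, 0]),
    (0, 0, [8, 8, -23, -1, 0])],
  [(0, 0, []),
    (0, 0, []),
    (0, 0, []),
    (0, 0, []),
    (0, 0, []),
    (0, 0, []),
    (0, 0, []),
    (0, 0, []),
    (1, 1, [2698, 3053, 355, 803, 71]),
    (0, 0, [55, 62, 2, -1, 0]),
    (0, 0, [215, 250, 1, 1, 0]),
    (0, 0, [14, 16, 1, 1, 0]),
    (0, 0, [86, 100, 1, 1, 0]),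
    (0, 0, [605, 705, 5, 6, 0]),
    (0, 0, [14, 16, 3, 4, 0]),
    (0, 0, [26, 29, 1, -1, 0]),
    (0, 0, [25, 28, 0, -2, 0])],
  [(0, 0, []),
    (0, 0, []),
    (0, 0, []),
    (0, 0, []),
    (0, 0, []),
    (0, 0, []),
    (0, 0, []),
    (0, 0, []),
    (0, 0, []),
    (0, 0, [46, 9, 27, 1, 0]),
    (0, 0, [47, 36, 24, 1, 0]),
    (0, 0, [10, 4, 5, 1, 0]),
    (0, 0, [47, 31, -74, 1, 0]),
    (0, 0, [46, 19, -78, 1, 0]),
    (0, 0, [7, 1, 10, 2, 0]),
    (0, 0, [20, 7, -45, -1, 0]),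
    (0, 0, [10, 3, -20, -1, 0])],
  [(0, 0, []),
    (0, 0, []),
    (0, 0, []),
    (0, 0, []),
    (0, 0, []),
    (0, 0, []),
    (0, 0, []),
    (0, 0, []),
    (0, 0, []),
    (0, 0, []),
    (3, 3, [204, -3400, 25840, 297, -748]),
    (1, 2, [3702, -8638, 51828, 677, -3702]),
    (1, 1, [8021, -3702, -2468, 139, -5553]),
    (1, 1, [1234, -1234, -617, 38, -617]),
    (1, 2, [617, -7404, 69721, 767, -2468]),
    (2, 2, [177, -2065, 20650, 223, -767]),
    (4, 4, [124, -2232, 21948, 237, -744])],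
  [(0, 0, []),
    (0, 0, []),
    (0, 0, []),
    (0, 0, []),
    (0, 0, []),
    (0, 0, []),
    (0, 0, []),
    (0, 0, []),
    (0, 0, []),
    (0, 0, []),
    (0, 0, []),
    (1, 2, [3702, -23446, 92550, 1417, -1234]),
    (1, 1, [1234, 38254, 8638, -625, -1234]),
    (1, 1, [617, 19744, 2468, -342, -617]),
    (1, 2, [13574, -265310, 1794236, 21349, -53062]),
    (3, 4, [272, 1496, 5848, 21, -136]),
    (4, 4, [124, -310, 10788, 95, -62])],
  [(0, 0, []),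
    (0, 0, []),
    (0, 0, []),
    (0, 0, []),
    (0, 0, []),
    (0, 0, []),
    (0, 0, []),
    (0, 0, []),
    (0, 0, []),
    (0, 0, []),
    (0, 0, []),
    (0, 0, []),
    (4, 2, [62, 186, -310, -3, -62]),
    (4, 2, [62, 124, -62, -5, -155]),
    (1, 1, [184, 299, 230, -12, -529]),
    (2, 1, [6170, -13574, 78976, 939, -9872]),
    (2, 1, [617, 1234, 0, -55, -1851])],
  [(0, 0, []),
    (0, 0, []),
    (0, 0, []),
    (0, 0, []),
    (0, 0, []),
    (0, 0, []),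
    (0, 0, []),
    (0, 0, []),
    (0, 0, []),
    (0, 0, []),
    (0, 0, []),
    (0, 0, []),
    (0, 0, []),
    (3, 3, [233, 2796, -466, -48, -233]),
    (2, 3, [93, 2666, 31, -83, -1333]),
    (1, 1, [617, 1234, 0, -21, -617]),
    (1, 1, [7404, 43190, 1234, -1177, -22212])],
  [(0, 0, []),
    (0, 0, []),
    (0, 0, []),
    (0, 0, []),
    (0, 0, []),
    (0, 0, []),
    (0, 0, []),
    (0, 0, []),
    (0, 0, []),
    (0, 0, []),
    (0, 0, []),
    (0, 0, []),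
    (0, 0, []),
    (0, 0, []),
    (2, 3, [93, 2108, 0, -66, -1085]),
    (1, 1, [1234, -17276, -6787, 243, -1851]),
    (1, 1, [617, -4936, -2468, 36, -1851])],
  [(0, 0, []),
    (0, 0, []),
    (0, 0, []),
    (0, 0, []),
    (0, 0, []),
    (0, 0, []),
    (0, 0, []),
    (0, 0, []),
    (0, 0, []),
    (0, 0, []),
    (0, 0, []),
    (0, 0, []),
    (0, 0, []),
    (0, 0, []),
    (0, 0, []),
    (2, 1, [2468, -45658, 316521, 3665, -12340]),
    (2, 1, [5553, -181398, 885395, 11210, -34552])],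
  [(0, 0, []),
    (0, 0, []),
    (0, 0, []),
    (0, 0, []),
    (0, 0, []),
    (0, 0, []),
    (0, 0, []),
    (0, 0, []),
    (0, 0, []),
    (0, 0, []),
    (0, 0, []),
    (0, 0, []),
    (0, 0, []),
    (0, 0, []),
    (0, 0, []),
    (0, 0, []),
    (3, 2, [58, -4118, -2030, 53, -58])],
  [(0, 0, []),
    (0, 0, []),
    (0, 0, []),
    (0, 0, []),
    (0, 0, []),
    (0, 0, []),
    (0, 0, []),
    (0, 0, []),
    (0, 0, []),
    (0, 0, []),
    (0, 0, []),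
    (0, 0, []),
    (0, 0, []),
    (0, 0, []),
    (0, 0, []),
    (0, 0, []),
    (0, 0, [])]]

end Pool.Agent.Helper39.Simp.Data17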