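import Mathlib
import Pool.Agent.Helper39.Simp.Data17

/-!
# Checking the integer data
-/

namespace Pool.Agent.Helper39.Simp.Data17

/-- Inner facet covectors. -/
def lam (i : Fin 17) (k t : Fin 5) : ℤ :=
  (sgn.getD i []).getD k 0 * ((hyp.getD ((rows.getD i []).getD k 0) []).getD t 0)

/-- Vertices. -/
def vert (i : Fin 17) (k t : Fin 5) : ℤ := ((verts.getD i []).getD k []).getD t 0

/-- Witness entry. -/
def wt (i j : Fin 17) : ℕ × ℕ × List ℤ := (wit.getD i []).getD j (0, 0, [])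

/-- Dot product. -/
def dot5 (c v : Fin 5 → ℤ) : ℤ := c 0 * v 0 + c 1 * v 1 + c 2 * v 2 + c 3 * v 3 + c 4 * v 4

lemma dot_eq (c v : Fin 5 → ℤ) : dot (d := 4) c v = dot5 c v := by
  unfold dot dot5
  rw [Fin.sum_univ_five]

lemma check_good : ∀ i : Fin 17, ∀ k : Fin 5, 0 < vert i k 0 ∧ ∀ l : Fin 5,
    (k ≠ l → dot5 (lam i k) (vert i l) = 0) ∧ (k = l → 0 < dot5 (lam i k) (vert i l)) := by
  decide +kernel

lemma check_pair : ∀ i j : Fin 17, i < j →
    (∀ t, lam i (Fin.ofNat 5 (wt i j).1) t = - lam j (Fin.ofNat 5 (wt i j).2.1) t) ∧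
    0 < (wt i j).2.2.getD 0 0 ∧
    dot5 (lam i (Fin.ofNat 5 (wt i j).1)) (fun t => (wt i j).2.2.getD t 0) = 0 ∧
    (∀ k, k ≠ Fin.ofNat 5 (wt i j).1 → 0 < dot5 (lam i k) (fun t => (wt i j).2.2.getD t 0)) ∧
    (∀ k, k ≠ Fin.ofNat 5 (wt i j).2.1 → 0 < dot5 (lam j k) (fun t => (wt i j).2.2.getD t 0)) := by
  decide +kernel

lemma good (i : Fin 17) : Good (d := 4) (lam i) (vert i) where
  pos := fun k => (check_good i k).1
  off := fun k l hkl => by rw [dot_eq]; exact ((check_good i k).2 l).1 hkl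
  diag := fun k => by rw [dot_eq]; exact ((check_good i k).2 k).2 rfl

lemma touch (i j : Fin 17) (hij : i < j) : Touch (d := 4) (lam i) (lam j) := by
  obtain ⟨h1, h2, h3, h4, h5⟩ := check_pair i j hij
  exact ⟨_, _, fun t => (wt i j).2.2.getD t 0, h1, h2, by rw [dot_eq]; exact h3,
    fun k hk => by rw [dot_eq]; exact h4 k hk, fun k hk => by rw [dot_eq]; exact h5 k hk⟩

theorem seventeen : ∃ F : Finset (Set (E 4)), Neighborly 4 F ∧ F.card = 17 :=
  family lam vert good touch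

end Pool.Agent.Helper39.Simp.Data17
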